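import Pool.Agent.Q89.GN.Nucl

/-!
# A nuclear unital simple separable C*-algebra which is not finitely generated

There is a nuclear unital simple separable C*-algebra `A`, without finite-dimensional
representations, all of whose finitely generated unital C*-subalgebras have finite-dimensional
representations.  So `A` is not generated by one element, nor by finitely many elements.

The algebra consists of all norm limits of self-similar, equivariant, operator valued functions on an
infinite product of spheres of rapidly increasing dimension.  A self-similar function of level `l` is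
determined by its `2 ^ l × 2 ^ l` corner, which is a continuous matrix valued function on the product
of the spheres, equivariant under the sign changes of the factors; further along the diagonal it
repeats its values at a dense sequence of points.  This makes the algebra simple.  A Borsuk-Ulam
theorem for products of spheres (`Pool.Agent.Helper133`, `Pool.Agent.Y269.GP`) shows that
finitely many elements are, at some point of the product, all reduced by the same
finite-dimensional subspace.  Nuclearity is the completely positive approximation property: map a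
function to its corners at finitely many points, and back by an equivariant partition of unity.
-/

set_option autoImplicit false

open scoped ComplexOrder

namespace Pool.Agent.Results.MP_704412_an.NuclearNotGenerated

/-- The smallest (not necessarily unital) C*-subalgebra of `A` containing the set `F`. -/
noncomputable def generated {A : Type*} [CStarAlgebra A] (F : Set A) : NonUnitalStarSubalgebra ℂ A :=
  (NonUnitalStarAlgebra.adjoin ℂ F).topologicalClosure

/-- The smallest unital C*-subalgebra of `A` containing the set `F`. -/
noncomputable def unitalGenerated {A : Type*} [CStarAlgebra A] (F : Set A) : StarSubalgebra ℂ A :=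
  (StarAlgebra.adjoin ℂ F).topologicalClosure

/-- Nuclearity of a C*-algebra, as the completely positive approximation property: the identity of
`A` is a point-norm limit of compositions `A → Mₙ(ℂ) → A` of completely positive contractions `φ`
and `ψ`.  (Complete positivity of `φ`: all matrices `(φ (x_i* x_j))` are positive semidefinite;
complete positivity of `ψ`: all sums `∑ y_i* ψ(Y_i* Y_j) y_j` are positive; `1 - M* M` is positive
semidefinite exactly if the matrix `M` is a contraction.) -/
def IsNuclear (A : Type) [CStarAlgebra A] : Prop :=
  ∀ (F : Finset A) (ε : ℝ), 0 < ε → ∃ (n : ℕ) (φ : A →ₗ[ℂ] Matrix (Fin n) (Fin n) ℂ)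
      (ψ : Matrix (Fin n) (Fin n) ℂ →ₗ[ℂ] A),
    (∀ (m : ℕ) (x : Fin m → A),
      (Matrix.of (fun p q : Fin m × Fin n => φ (star (x p.1) * x q.1) p.2 q.2)).PosSemidef) ∧
    (∀ (m : ℕ) (Y : Fin m → Matrix (Fin n) (Fin n) ℂ) (y : Fin m → A),
      ∃ s : A, ∑ i, ∑ j, star (y i) * ψ (star (Y i) * Y j) * y j = star s * s) ∧
    (∀ a : A, ‖a‖ ≤ 1 → (1 - star (φ a) * φ a).PosSemidef) ∧
    (∀ M : Matrix (Fin n) (Fin n) ℂ, (1 - star M * M).PosSemidef → ‖ψ M‖ ≤ 1) ∧
    ∀ a ∈ F, ‖ψ (φ a) - a‖ < ε

/-- There is a nuclear unital simple separable C*-algebra `A` such that no element of `A`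
generates `A`, and no finite subset of `A` generates `A`.  Moreover every unital C*-subalgebra of `A`
generated by a finite set has a unital star homomorphism to some matrix algebra `M_n(ℂ)`, `n ≥ 1`,
while `A` has no such homomorphism. -/
theorem result : ∃ (A : Type) (_ : CStarAlgebra A),
    TopologicalSpace.SeparableSpace A ∧ IsSimpleRing A ∧ IsNuclear A ∧
    (∀ x : A, generated {x} ≠ ⊤) ∧
    (∀ F : Set A, F.Finite → generated F ≠ ⊤) ∧
    (∀ F : Set A, F.Finite → ∃ n : ℕ, 0 < n ∧
      Nonempty (↥(unitalGenerated F) →⋆ₐ[ℂ] Matrix (Fin n) (Fin n) ℂ)) ∧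
    (∀ n : ℕ, 0 < n → IsEmpty (A →⋆ₐ[ℂ] Matrix (Fin n) (Fin n) ℂ)) := by
  have h3 := Q89.GN.not_fg Pool.Agent.Y269.GP.amb
  refine ⟨↥(Q89.GN.A1 Pool.Agent.Y269.GP.amb), inferInstance,
    Q89.GN.sepB Pool.Agent.Y269.GP.amb, Q89.GN.simpleB Pool.Agent.Y269.GP.amb, ?_,
    fun x h => h3 {x} (Set.finite_singleton x) (Q89.GN.gen_of_nonunital h),
    fun F hF h => h3 F hF (Q89.GN.gen_of_nonunital h),
    Q89.GN.exists_repB Pool.Agent.Y269.GP.amb,
    fun n hn => Q89.GN.no_rep (Q89.GN.simpleB Pool.Agent.Y269.GP.amb) h3 n hn⟩
  intro F ε hε
  obtain ⟨n, φ, ψ, h⟩ := Q89.GN.nuclB Pool.Agent.Y269.GP.amb F ε hε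
  exact ⟨n, φ, ψ, h⟩

end Pool.Agent.Results.MP_704412_an.NuclearNotGenerated
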